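import Pool.Agent.J6H99.NX.Stm
import Pool.Agent.J6H99.NX.Flat

/-!
# First-passage percolation, exponential moments: from forward to general search events
-/

set_option autoImplicit false

open MeasureTheory ProbabilityTheory Filter Topology
open scoped ENNReal
open Pool.Agent.J6H99.NX

namespace Pool.Agent.J6H75.NX.SS

variable {e : ℕ}

/-- the final part of a walk which starts at a vertex of minimal level -/
lemma cut_min (q : Par) (ω : Om e) (φ : V e → ℝ) {x y : V e} (p : (lat e).Walk x y) :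
    ∃ (z : V e) (p' : (lat e).Walk z y), (∀ s ∈ p'.edges, s ∈ p.edges) ∧
      (∀ v ∈ p'.support, v ∈ p.support) ∧ cost q ω p' ≤ cost q ω p ∧
      (∀ v ∈ p.support, φ z ≤ φ v) := by
  induction p with
  | @nil x => exact ⟨x, SimpleGraph.Walk.nil, fun _ h => h, fun _ h => h, le_rfl, by simp⟩
  | @cons x x' y h p ih =>
    obtain ⟨z, p', h1, h2, h3, h4⟩ := ih
    by_cases hc : φ x ≤ φ z
    · refine ⟨x, SimpleGraph.Walk.cons h p, fun _ h => h, fun _ h => h, le_rfl, ?_⟩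
      intro v hv
      rw [SimpleGraph.Walk.support_cons, List.mem_cons] at hv
      rcases hv with rfl | hv
      · exact le_rfl
      · exact hc.trans (h4 v hv)
    · push Not at hc
      refine ⟨z, p', fun s hs => ?_, fun v hv => ?_, ?_, ?_⟩
      · rw [SimpleGraph.Walk.edges_cons]; exact List.mem_cons_of_mem _ (h1 s hs)
      · rw [SimpleGraph.Walk.support_cons]; exact List.mem_cons_of_mem _ (h2 v hv)
      · rw [cost_cons]; have := q.w_nonneg (ω s(x, x')); linarith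
      · intro v hv
        rw [SimpleGraph.Walk.support_cons, List.mem_cons] at hv
        rcases hv with rfl | hv
        · exact hc.le
        · exact h4 v hv

/-- the initial part of a walk up to the first vertex of maximal level -/
lemma cut_max (q : Par) (ω : Om e) (φ : V e → ℝ) {x y : V e} (p : (lat e).Walk x y) :
    ∃ (z : V e) (p' : (lat e).Walk x z), (∀ s ∈ p'.edges, s ∈ p.edges) ∧
      (∀ v ∈ p'.support, v ∈ p.support) ∧ cost q ω p' ≤ cost q ω p ∧
      (∀ v ∈ p.support, φ v ≤ φ z) ∧ (∀ s ∈ p'.edges, ∃ v ∈ s, φ v < φ z) := by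
  induction p with
  | @nil x =>
    exact ⟨x, SimpleGraph.Walk.nil, fun _ h => h, fun _ h => h, le_rfl, by simp, by simp⟩
  | @cons x x' y h p ih =>
    obtain ⟨z, p', h1, h2, h3, h4, h5⟩ := ih
    by_cases hc : φ x < φ z
    · refine ⟨z, SimpleGraph.Walk.cons h p', fun s hs => ?_, fun v hv => ?_, ?_, ?_, ?_⟩
      · rw [SimpleGraph.Walk.edges_cons, List.mem_cons] at hs ⊢
        exact hs.imp_right (h1 s)
      · rw [SimpleGraph.Walk.support_cons, List.mem_cons] at hv ⊢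
        exact hv.imp_right (h2 v)
      · rw [cost_cons, cost_cons]; linarith
      · intro v hv
        rw [SimpleGraph.Walk.support_cons, List.mem_cons] at hv
        rcases hv with rfl | hv
        · exact hc.le
        · exact h4 v hv
      · intro s hs
        rw [SimpleGraph.Walk.edges_cons, List.mem_cons] at hs
        rcases hs with rfl | hs
        · exact ⟨x, Sym2.mem_mk_left _ _, hc⟩
        · exact h5 s hs
    · push Not at hc
      refine ⟨x, SimpleGraph.Walk.nil, by simp, by simp, ?_, ?_, by simp⟩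
      · rw [cost_nil]; exact cost_nonneg q ω _
      · intro v hv
        rw [SimpleGraph.Walk.support_cons, List.mem_cons] at hv
        rcases hv with rfl | hv
        · exact le_rfl
        · exact (h4 v hv).trans hc

/-- a walk which starts in a region and uses only edges of it stays in the region -/
lemma support_of_uses {R : Set (V e)} {x y : V e} (p : (lat e).Walk x y) (hx : x ∈ R)
    (hp : Uses p (EIn R)) : ∀ v ∈ p.support, v ∈ R := by
  induction p with
  | nil =>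
    intro v hv
    rw [SimpleGraph.Walk.support_nil, List.mem_singleton] at hv
    rw [hv]; exact hx
  | @cons x x' y h p ih =>
    intro v hv
    rw [SimpleGraph.Walk.support_cons, List.mem_cons] at hv
    have h1 : s(x, x') ∈ EIn R := hp _ (by rw [SimpleGraph.Walk.edges_cons]; simp)
    rcases hv with rfl | hv
    · exact hx
    · refine ih (h1 x' (Sym2.mem_mk_right _ _)) (fun s hs => hp s ?_) v hv
      rw [SimpleGraph.Walk.edges_cons]; exact List.mem_cons_of_mem _ hs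

lemma exists_straight (x s : V e) (hs : n1 s = 1) (n : ℕ) :
    ∃ P : (lat e).Walk x (x + (n : ℤ) • s), P.IsPath ∧ P.length ≤ n ∧
      ∀ t ∈ P.edges, ∃ j : ℕ, j < n ∧
        t = s(x + (j : ℤ) • s, x + ((j + 1 : ℕ) : ℤ) • s) := by
  obtain ⟨P, h1, h2, h3⟩ := steps_path (fun j : ℕ => x + (j : ℤ) • s) n (fun j _ => by
    show n1 _ = 1
    rw [show x + (j : ℤ) • s - (x + ((j + 1 : ℕ) : ℤ) • s) = -s by
      push_cast; rw [add_smul, one_smul]; abel, n1_neg, hs])
  have h5 : x + ((0 : ℕ) : ℤ) • s = x := by simp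
  refine ⟨P.copy h5 rfl, ?_, ?_, ?_⟩
  · rw [SimpleGraph.Walk.isPath_copy]; exact h1
  · rw [SimpleGraph.Walk.length_copy]; exact h2
  · intro t ht
    rw [SimpleGraph.Walk.edges_copy] at ht
    exact h3 t ht

/-- the straight path with `n` steps `s` -/
noncomputable def strt (x s : V e) (hs : n1 s = 1) (n : ℕ) : (lat e).Walk x (x + (n : ℤ) • s) :=
  (exists_straight x s hs n).choose

lemma strt_path (x s : V e) (hs : n1 s = 1) (n : ℕ) : (strt x s hs n).IsPath :=
  (exists_straight x s hs n).choose_spec.1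

lemma strt_len (x s : V e) (hs : n1 s = 1) (n : ℕ) : (strt x s hs n).length ≤ n :=
  (exists_straight x s hs n).choose_spec.2.1

lemma strt_uses (x s : V e) (hs : n1 s = 1) (n : ℕ) {R : Set (V e)}
    (h : ∀ m : ℕ, m ≤ n → x + (m : ℤ) • s ∈ R) : Uses (strt x s hs n) (EIn R) := by
  intro t ht
  obtain ⟨j, hj, rfl⟩ := (exists_straight x s hs n).choose_spec.2.2 t ht
  intro v hv
  rw [Sym2.mem_iff] at hv
  rcases hv with rfl | rfl
  · exact h j hj.le
  · exact h (j + 1) hj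

/-- a shortest path -/
noncomputable def sp (x y : V e) : (lat e).Walk x y := (exists_path_len x y).choose

lemma sp_path (x y : V e) : (sp x y).IsPath := (exists_path_len x y).choose_spec.1

lemma sp_len (x y : V e) : ((sp x y).length : ℤ) = n1 (y - x) :=
  (exists_path_len x y).choose_spec.2

/-- some shortest path or some straight path near the origin is expensive -/
def Exp (q : Par) (θ : ℝ) (m : ℕ) (s : V e) (hs : n1 s = 1) (n : ℕ) : Set (Om e) :=
  {ω | ∃ x y : V e, n1 (x - 0) ≤ m ∧ n1 (y - 0) ≤ m ∧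
    ω ∈ {ω : Om e | q.b * (sp x y).length + θ * m ≤ cost q ω (sp x y)}} ∪
  {ω | ∃ x y : V e, n1 (x - 0) ≤ m ∧ n1 (y - 0) ≤ m ∧
    ω ∈ {ω : Om e | q.b * (strt x s hs n).length + θ * m ≤ cost q ω (strt x s hs n)}}

lemma Exp_prob (q : Par) (F : Measure ℝ) [IsProbabilityMeasure F] [MB q F] {θ : ℝ} (hθ : 0 < θ) :
    ∃ C : ℝ, 0 < C ∧ ∀ (m : ℕ) (s : V e) (hs : n1 s = 1) (n : ℕ), 1 ≤ m →
      PM e F (Exp q θ m s hs n) ≤ ENNReal.ofReal (C / m) := by
  obtain ⟨C, hC, h⟩ := union_pairs (e := e) q F hθ 1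
  refine ⟨2 * C, by positivity, fun m s hs n hm => ?_⟩
  have h1 := h m 0 hm (fun x y => {ω : Om e | q.b * (sp x y).length + θ * m ≤ cost q ω (sp x y)})
    fun x y => tail_cost q F (sp_path x y) (θ * m)
  have h2 := h m 0 hm (fun x _ => {ω : Om e | q.b * (strt x s hs n).length + θ * m ≤
    cost q ω (strt x s hs n)}) fun x _ => tail_cost q F (strt_path x s hs n) (θ * m)
  have hm0 : (0 : ℝ) < m := by exact_mod_cast hm
  refine (measure_union_le _ _).trans ((add_le_add h1 h2).trans ?_)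
  rw [← ENNReal.ofReal_add (by positivity) (by positivity), pow_one]
  refine ENNReal.ofReal_le_ofReal (le_of_eq ?_)
  ring

section

variable {q : Par} {F : Measure ℝ} [IsProbabilityMeasure F] {ι : Type} [Fintype ι]

/-- the size of the functionals -/
noncomputable def sz (D : Cor e q F ι) : ℝ := nr D.chi + ∑ j, nr (D.f j)

lemma sz_nonneg (D : Cor e q F ι) : 0 ≤ sz D :=
  add_nonneg (nr_nonneg _) (Finset.sum_nonneg fun _ _ => nr_nonneg _)

lemma chi_le_sz (D : Cor e q F ι) {x : V e} {B : ℝ} (h : (n1 x : ℝ) ≤ B) :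
    |lf D.chi x| ≤ sz D * B := by
  have h0 : (0 : ℝ) ≤ n1 x := by exact_mod_cast n1_nonneg x
  refine (abs_lf_le _ _).trans (mul_le_mul ?_ h h0 (sz_nonneg D))
  unfold sz
  have : 0 ≤ ∑ j, nr (D.f j) := Finset.sum_nonneg fun _ _ => nr_nonneg _
  linarith

lemma f_chi_le_sz (D : Cor e q F ι) (i : ι) {x : V e} {B : ℝ} (h : (n1 x : ℝ) ≤ B) :
    |lf (D.f i) x - lf D.chi x| ≤ sz D * B := by
  have h0 : (0 : ℝ) ≤ n1 x := by exact_mod_cast n1_nonneg x
  have h1 : nr (D.f i) ≤ ∑ j, nr (D.f j) :=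
    Finset.single_le_sum (f := fun j => nr (D.f j)) (fun j _ => nr_nonneg _) (Finset.mem_univ i)
  have h2 := abs_lf_le (D.f i) x
  have h3 := abs_lf_le D.chi x
  have h4 : |lf (D.f i) x - lf D.chi x| ≤ (nr D.chi + nr (D.f i)) * n1 x := by
    refine (abs_sub _ _).trans ?_
    rw [add_mul]; linarith
  refine h4.trans (mul_le_mul ?_ h h0 (sz_nonneg D))
  unfold sz
  linarith

/-- translates of the points of a tube -/
lemma tube_tr (D : Cor e q F ι) {l w w' B : ℝ} {v x : V e} (hv : v ∈ Tube D l w)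
    (hx : (n1 x : ℝ) ≤ B) (hw : w + sz D * B ≤ w') : v - x ∈ Tube D l w' := by
  obtain ⟨h1, h2, h3⟩ := hv
  have h4 := abs_le.1 (chi_le_sz D hx)
  refine ⟨?_, ?_, fun i => ?_⟩
  · rw [lf_sub]; linarith
  · rw [lf_sub]; linarith
  · have h5 := abs_le.1 (f_chi_le_sz D i hx)
    have h6 := h3 i
    rw [lf_sub, lf_sub]; linarith

lemma zero_mem_tube (D : Cor e q F ι) {l w : ℝ} (hl : 0 ≤ l) (hw : 0 ≤ w) :
    (0 : V e) ∈ Tube D l w := by
  refine ⟨?_, ?_, fun i => ?_⟩ <;> simp only [lf_zero] <;> linarith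

/-- points near the origin are in the tube -/
lemma tube_small (D : Cor e q F ι) {l w B : ℝ} {v : V e} (hl : 0 ≤ l) (hv : (n1 v : ℝ) ≤ B)
    (hw : sz D * B ≤ w) : v ∈ Tube D l w := by
  have h := tube_tr D (v := 0) (x := -v) (w := 0) (w' := w) (B := B)
    (zero_mem_tube D hl le_rfl) (by rw [n1_neg]; exact hv) (by linarith)
  rwa [zero_sub, neg_neg] at h

/-- points of the tube of nonpositive level are near the origin -/
lemma near_zero (D : Cor e q F ι) (i : ι) {l w : ℝ} {z : V e} (hz : z ∈ Tube D l w)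
    (hf : lf (D.f i) z ≤ 0) :
    (n1 z : ℝ) ≤ w * (1 / D.c0 + Fintype.card ι * nr D.v) := by
  obtain ⟨h1, h2, h3⟩ := hz
  have hN : (1 : ℝ) ≤ Fintype.card ι := by
    have := D.card_pos
    have h : 0 < Fintype.card ι := by exact_mod_cast this
    exact_mod_cast h
  have h4 := D.f_sub_chi_ge (y := vc z) (w := w) h3 i
  have h5 := D.near_line (y := vc z) (w := w) h3
  have h6 : dt D.chi (vc z) ≤ Fintype.card ι * w := by
    have : lf (D.f i) z = dt (D.f i) (vc z) := rfl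
    rw [this] at hf
    linarith
  have hw : 0 ≤ w := by
    have h7 := D.sum_f_sub_chi (vc z)
    by_contra hw
    push Not at hw
    have h8 : ∑ j, (dt (D.f j) (vc z) - dt D.chi (vc z)) ≤ ∑ _j : ι, w :=
      Finset.sum_le_sum fun j _ => h3 j
    rw [h7, Finset.sum_const, Finset.card_univ, nsmul_eq_mul] at h8
    have := mul_neg_of_pos_of_neg D.card_pos hw
    linarith
  have h7 : -(Fintype.card ι * w) ≤ dt D.chi (vc z) := by
    have h8 : -w ≤ dt D.chi (vc z) := h1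
    have h9 : w ≤ Fintype.card ι * w := by nlinarith
    linarith
  have h8 : |dt D.chi (vc z)| ≤ Fintype.card ι * w := abs_le.2 ⟨h7, h6⟩
  have h9 := nr_add_le (vc z - dt D.chi (vc z) • D.v) (dt D.chi (vc z) • D.v)
  rw [sub_add_cancel, nr_smul, nr_vc] at h9
  have h10 := mul_le_mul_of_nonneg_right h8 (nr_nonneg D.v)
  have h11 : w * (1 / D.c0 + Fintype.card ι * nr D.v) =
      w / D.c0 + Fintype.card ι * w * nr D.v := by ring
  rw [h11]
  linarith

/-- the search event seen from the point `x0` -/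
lemma search_tr (D : Cor e q F ι) (i : ι) {l w w' B s t t0 : ℝ} {x0 z y : V e} {ω : Om e}
    (hl : 0 ≤ l) (hB : (n1 x0 : ℝ) ≤ B) (hw0 : 0 ≤ w) (hw : w + sz D * B ≤ w')
    (p : (lat e).Walk z y) (hp : ∀ v ∈ p.support, v ∈ Tube D l w)
    (hlow : ∀ v ∈ p.support, lf (D.f i) z ≤ lf (D.f i) v)
    (hup : ∀ v ∈ p.support, lf (D.f i) v ≤ lf (D.f i) y)
    (hed : ∀ s ∈ p.edges, ∃ v ∈ s, lf (D.f i) v < lf (D.f i) y) (hc : cost q ω p ≤ t)
    (h0 : ω ∈ Ev q (EIn {v | lf (D.f i) x0 ≤ lf (D.f i) v ∧ lf (D.f i) v < lf (D.f i) y ∧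
      (n1 (v - x0) : ℝ) ≤ B}) x0 z t0)
    (hz0 : lf (D.f i) x0 ≤ lf (D.f i) z)
    (ht : t0 + t ≤ lf (D.f i) y - lf (D.f i) x0 - s) :
    act (tr x0) ω ∈ SSf D i l w' s := by
  set f := D.f i with hf
  have hS := sz_nonneg D
  have hB0 : 0 ≤ B := le_trans (by exact_mod_cast n1_nonneg x0) hB
  -- the region
  set R : Set (V e) := {v | v - x0 ∈ Tube D l w' ∧ lf f x0 ≤ lf f v ∧ lf f v ≤ lf f y} with hR
  have h1 : ω ∈ Ev q (EIn R ∩ Low f (lf f y)) z y t := by
    refine ⟨p, fun s hs => ⟨?_, hed s hs⟩, hc⟩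
    refine edges_EIn (R := R) (fun v hv => ⟨tube_tr D (hp v hv) hB hw, ?_, hup v hv⟩) s hs
    exact hz0.trans (hlow v hv)
  have h2 : ω ∈ Ev q (EIn R ∩ Low f (lf f y)) x0 z t0 := by
    refine Ev_mono_set q ?_ _ _ _ h0
    intro s hs
    refine ⟨fun v hv => ?_, ?_⟩
    · obtain ⟨h3, h4, h5⟩ := hs v hv
      exact ⟨tube_small D hl h5 (by linarith), h3, h4.le⟩
    · induction s with
      | _ a b =>
        exact ⟨a, Sym2.mem_mk_left _ _, (hs a (Sym2.mem_mk_left _ _)).2.1⟩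
  have h3 : ω ∈ Ev q (EIn R ∩ Low f (lf f y)) x0 y (lf f (y - x0) - s) := by
    refine Ev_mono q _ _ _ ?_ (Ev_trans q h2 h1)
    rw [lf_sub]; linarith
  -- translation
  refine Set.mem_iUnion.2 ⟨y - x0, ?_⟩
  have h4 : act (tr x0).symm (act (tr x0) ω) ∈ Ev q (EIn R ∩ Low f (lf f y)) x0 y
      (lf f (y - x0) - s) := by
    rw [act_act_symm]; exact h3
  have h5 := Ev_act_sub q (tr x0).symm (A := EIn R ∩ Low f (lf f y))
    (B := EIn (Tube D l w' ∩ HS f 0 ∩ {x | lf f x ≤ lf f (y - x0)}) ∩ Low f (lf f (y - x0)))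
    ?_ x0 y _ h4
  · have h6 : (tr x0).symm x0 = 0 := by
      show x0 - x0 = 0
      exact sub_self _
    have h7 : (tr x0).symm y = y - x0 := rfl
    rw [h6, h7] at h5
    exact h5
  · rintro s ⟨hs1, hs2⟩
    refine ⟨?_, ?_⟩
    · intro v hv
      rw [Sym2.mem_map] at hv
      obtain ⟨v, hv, rfl⟩ := hv
      obtain ⟨h6, h7, h8⟩ := hs1 v hv
      refine ⟨⟨h6, ?_⟩, ?_⟩
      · show 0 ≤ lf f (v - x0)
        rw [lf_sub]; linarith
      · show lf f (v - x0) ≤ lf f (y - x0)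
        rw [lf_sub, lf_sub]; linarith
    · obtain ⟨v, hv, h6⟩ := hs2
      refine ⟨v - x0, Sym2.mem_map.2 ⟨v, hv, rfl⟩, ?_⟩
      rw [lf_sub, lf_sub]; linarith

lemma n1_zsmul (n : ℤ) (x : V e) : n1 (n • x) = |n| * n1 x := by
  unfold n1
  rw [Finset.mul_sum]
  refine Finset.sum_congr rfl fun i _ => ?_
  rw [Pi.smul_apply, smul_eq_mul, abs_mul]

lemma lf_u (c : E e) (j : Fin (e + 2)) : lf c (u j) = c j := by
  unfold lf dt vc u
  rw [Finset.sum_eq_single j]
  · simp
  · intro b _ hb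
    simp [Pi.single_eq_of_ne hb]
  · simp

/-- a unit step which increases the level -/
lemma exists_step {c : E e} (hc : c ≠ 0) : ∃ (s : V e) (β : ℝ), n1 s = 1 ∧ 0 < β ∧ lf c s = β := by
  obtain ⟨j, hj⟩ := Function.ne_iff.1 hc
  rcases lt_or_gt_of_ne hj with h | h
  · have h' : c j < 0 := h
    exact ⟨-u j, -c j, by rw [n1_neg, n1_u], by linarith, by rw [lf_neg, lf_u]⟩
  · exact ⟨u j, c j, n1_u j, h, lf_u c j⟩

/-- the general search event is covered by boundedly many translates of the forward one -/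
lemma cells [MB q F] (D : Cor e q F ι) (i : ι) {W κ : ℝ} (hW : 0 < W) (hκ : 0 < κ) :
    ∃ (W' : ℝ) (k0 : ℕ) (J : Finset (V e)) (zz : ℕ → V e → V e) (Bd : ℕ → Set (Om e)) (CB : ℝ),
      0 < W' ∧ J.Nonempty ∧ 0 ≤ CB ∧ 1 ≤ k0 ∧
      (∀ k : ℕ, k0 ≤ k → PM e F (Bd k) ≤ ENNReal.ofReal (CB / k)) ∧
      ∀ l k : ℕ, k0 ≤ k → SSg D i l (W * k) (κ * k) ⊆ Bd k ∪
        ⋃ a ∈ J, act (tr (zz k a)) ⁻¹' (SSf D i l (W' * k) (κ / 2 * k)) := by
  obtain ⟨s, β, hs, hβ, hfs⟩ := exists_step (D.f_ne i)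
  set f := D.f i with hf
  have he : (0 : ℝ) ≤ e := Nat.cast_nonneg e
  have hnf := nr_nonneg f
  have hb := q.hb
  set C : ℝ := nr f * ((e : ℝ) + 2) / β with hC
  have hC0 : 0 ≤ C := by positivity
  have hCβ : C * β = nr f * ((e : ℝ) + 2) := div_mul_cancel₀ _ hβ.ne'
  set H : ℝ := q.b * (C + e + 3) + 2 * (nr f * ((e : ℝ) + 2)) + 1 with hH
  have hH0 : 0 < H := by positivity
  set θ : ℝ := κ / (8 * H) with hθ
  have hθ0 : 0 < θ := by positivity
  have hθH : 2 * θ * H = κ / 4 := by rw [hθ]; field_simp; norm_num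
  set A : ℝ := W * (1 / D.c0 + Fintype.card ι * nr D.v) with hA
  have hA0 : 0 ≤ A := by
    have := D.c0_pos
    have := nr_nonneg D.v
    positivity
  set A' : ℝ := A + 2 * θ * (e + 3 + C) with hA'
  have hA'0 : 0 ≤ A' := by positivity
  set M : ℤ := ⌈A / θ⌉ + 1 with hM
  have hM0 : 0 ≤ M := by
    have : 0 ≤ ⌈A / θ⌉ := Int.ceil_nonneg (by positivity)
    omega
  obtain ⟨K, hK⟩ := exists_nat_ge (A' + 1)
  have hK0 : (0 : ℝ) < K := by linarith
  have hK1 : 1 ≤ K := by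
    have : (0 : ℝ) < K := hK0
    exact_mod_cast this
  set θ' : ℝ := κ / (8 * K) with hθ'
  have hθ'0 : 0 < θ' := by positivity
  have hθ'K : θ' * K = κ / 8 := by rw [hθ']; field_simp
  obtain ⟨CB, hCB, hCBP⟩ := Exp_prob (e := e) q F hθ'0
  refine ⟨W + sz D * A', max 1 ⌈1 / θ⌉₊, Fintype.piFinset fun _ => Finset.Icc (-M) M,
    fun k a => ((⌈θ * k⌉₊ : ℕ) : ℤ) • a - ((⌈C * (⌈θ * k⌉₊ : ℕ)⌉₊ : ℕ) : ℤ) • s,
    fun k => Exp q θ' (K * k) s hs ⌈C * (⌈θ * k⌉₊ : ℕ)⌉₊, CB, ?_, ?_, hCB.le, le_max_left _ _,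
    ?_, ?_⟩
  · have := mul_nonneg (sz_nonneg D) hA'0
    linarith
  · exact ⟨0, Fintype.mem_piFinset.2 fun _ => Finset.mem_Icc.2 ⟨by simpa using hM0, by simpa using hM0⟩⟩
  · intro k hk
    have hk1 : 1 ≤ k := (le_max_left _ _).trans hk
    refine (hCBP (K * k) s hs _ (Nat.mul_pos hK1 hk1)).trans (ENNReal.ofReal_le_ofReal ?_)
    have hk0 : (0 : ℝ) < k := by exact_mod_cast hk1
    refine div_le_div_of_nonneg_left hCB.le hk0 ?_
    have hK1' : (1 : ℝ) ≤ K := by exact_mod_cast hK1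
    push_cast
    exact le_mul_of_one_le_left hk0.le hK1'
  intro l k hk ω hω
  by_cases hBd : ω ∈ Exp q θ' (K * k) s hs ⌈C * (⌈θ * k⌉₊ : ℕ)⌉₊
  · exact Or.inl hBd
  refine Or.inr ?_
  have hk1 : 1 ≤ k := (le_max_left _ _).trans hk
  have hk2 : 1 ≤ θ * k := by
    have h1 : (1 / θ : ℝ) ≤ k := by
      refine (Nat.le_ceil _).trans ?_
      exact_mod_cast (le_max_right _ _).trans hk
    rwa [div_le_iff₀' hθ0] at h1
  have hk0 : (0 : ℝ) < k := by exact_mod_cast hk1
  have hl : (0 : ℝ) ≤ l := Nat.cast_nonneg l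
  set r : ℕ := ⌈θ * k⌉₊ with hr
  have hr1 : θ * k ≤ r := Nat.le_ceil _
  have hr2 : (r : ℝ) ≤ 2 * θ * k := by
    have := Nat.ceil_lt_add_one (show 0 ≤ θ * k by positivity)
    rw [← hr] at this
    linarith
  have hr3 : (1 : ℝ) ≤ r := hk2.trans hr1
  have hr0 : (0 : ℤ) < r := by
    have : 0 < r := by
      have h : (0 : ℝ) < r := by linarith
      exact_mod_cast h
    exact_mod_cast this
  set n : ℕ := ⌈C * (r : ℕ)⌉₊ with hn
  have hn1 : C * r ≤ n := Nat.le_ceil _
  have hn2 : (n : ℝ) ≤ (C + 1) * r := by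
    have := Nat.ceil_lt_add_one (show 0 ≤ C * (r : ℝ) by positivity)
    rw [← hn] at this
    linarith
  -- the walk
  obtain ⟨y, p, hp, hc⟩ := Set.mem_iUnion.1 hω
  have hWk : 0 ≤ W * k := by positivity
  have hsupp := support_of_uses p (zero_mem_tube D hl hWk) hp
  obtain ⟨z, p1, -, h12, h13, h14⟩ := cut_min q ω (lf f) p
  obtain ⟨y', p2, h21, h22, h23, h24, h25⟩ := cut_max q ω (lf f) p1
  have hz0 : lf f z ≤ 0 := by
    have := h14 0 p.start_mem_support
    rwa [lf_zero] at this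
  have hyy' : lf f y ≤ lf f y' := h24 y p1.end_mem_support
  have hcost : cost q ω p2 ≤ lf f y' - κ * k := by linarith
  have hc0 := cost_nonneg q ω p2
  have hκk : 0 < κ * k := by positivity
  have hzy' : lf f z + κ * k ≤ lf f y' := by linarith
  have hzT : z ∈ Tube D l (W * k) := hsupp z (h12 z p1.start_mem_support)
  have hnz : (n1 z : ℝ) ≤ A * k := by
    have := near_zero D i hzT hz0
    rw [hA]; linarith
  -- the cell
  set a : V e := fun m => z m / (r : ℤ) with ha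
  set z1 : V e := (r : ℤ) • a with hz1
  have hmod : ∀ m, z m - z1 m = z m % (r : ℤ) := by
    intro m
    have h := Int.emod_add_mul_ediv (z m) (r : ℤ)
    simp only [hz1, ha, Pi.smul_apply, smul_eq_mul]
    linarith
  have hzz1 : (n1 (z - z1) : ℝ) ≤ ((e : ℝ) + 2) * r := by
    have h1 : n1 (z - z1) ≤ ∑ _m : Fin (e + 2), (r : ℤ) := by
      unfold n1
      refine Finset.sum_le_sum fun m _ => ?_
      rw [Pi.sub_apply, hmod, abs_of_nonneg (Int.emod_nonneg _ hr0.ne')]
      exact (Int.emod_lt_of_pos _ hr0).le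
    rw [Finset.sum_const, Finset.card_univ, Fintype.card_fin, nsmul_eq_mul] at h1
    have h2 : ((n1 (z - z1) : ℤ) : ℝ) ≤ ((((e + 2 : ℕ) : ℤ) * (r : ℤ) : ℤ) : ℝ) := by
      exact_mod_cast h1
    push_cast at h2
    exact h2
  have haJ : a ∈ Fintype.piFinset fun _ : Fin (e + 2) => Finset.Icc (-M) M := by
    rw [Fintype.mem_piFinset]
    intro m
    have h1 : |(z m : ℝ)| ≤ A * k := by
      have h2 : ((|z m| : ℤ) : ℝ) ≤ n1 z := by exact_mod_cast coord_le_n1 z m
      rw [Int.cast_abs] at h2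
      exact h2.trans hnz
    have h2 : (r : ℝ) * (a m : ℝ) = z m - ((z m % (r : ℤ) : ℤ) : ℝ) := by
      have h := hmod m
      simp only [hz1, Pi.smul_apply, smul_eq_mul] at h
      have h' : (r : ℤ) * a m = z m - z m % (r : ℤ) := by linarith
      exact_mod_cast h'
    have h3 : (0 : ℝ) ≤ ((z m % (r : ℤ) : ℤ) : ℝ) := by
      exact_mod_cast Int.emod_nonneg _ hr0.ne'
    have h4 : ((z m % (r : ℤ) : ℤ) : ℝ) ≤ r := by
      exact_mod_cast (Int.emod_lt_of_pos _ hr0).le
    have h5 := abs_le.1 h1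
    have h6 : A * k ≤ (A / θ) * r := by
      have h7 : A * k = (A / θ) * (θ * k) := by field_simp
      rw [h7]
      exact mul_le_mul_of_nonneg_left hr1 (by positivity)
    have hrpos : (0 : ℝ) < r := by linarith
    have hup : (a m : ℝ) ≤ A / θ := by
      have h7 : (r : ℝ) * (a m : ℝ) ≤ r * (A / θ) := by linarith [h5.2]
      exact le_of_mul_le_mul_left h7 hrpos
    have hlo : -(A / θ + 1) ≤ (a m : ℝ) := by
      have h7 : (r : ℝ) * (-(A / θ + 1)) ≤ r * (a m : ℝ) := by linarith [h5.1]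
      exact le_of_mul_le_mul_left h7 hrpos
    have h8 := Int.le_ceil (A / θ)
    rw [Finset.mem_Icc]
    constructor
    · have : ((-M : ℤ) : ℝ) ≤ (a m : ℝ) := by rw [hM]; push_cast; linarith
      exact_mod_cast this
    · have : (a m : ℝ) ≤ ((M : ℤ) : ℝ) := by rw [hM]; push_cast; linarith
      exact_mod_cast this
  refine Set.mem_iUnion₂.2 ⟨a, haJ, ?_⟩
  show act (tr (z1 - (n : ℤ) • s)) ω ∈ SSf D i l ((W + sz D * A') * k) (κ / 2 * k)
  set x0 : V e := z1 - (n : ℤ) • s with hx0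
  have hx0z1 : x0 + (n : ℤ) • s = z1 := by rw [hx0]; abel
  -- bounds
  have hns : ∀ m : ℕ, (n1 ((m : ℤ) • s) : ℝ) = m := by
    intro m
    have : n1 ((m : ℤ) • s) = m := by rw [n1_zsmul, hs]; simp
    exact_mod_cast this
  have hB1 : ((e : ℝ) + 2) * r + n ≤ 2 * θ * (e + 3 + C) * k := by
    have h1 : ((e : ℝ) + 2) * r + n ≤ (e + 3 + C) * r := by
      have h : ((e : ℝ) + 3 + C) * r = ((e : ℝ) + 2) * r + (C + 1) * r := by ring
      rw [h]
      exact add_le_add_right hn2 _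
    refine h1.trans ?_
    have h2 : 2 * θ * (e + 3 + C) * k = (e + 3 + C) * (2 * θ * k) := by ring
    rw [h2]
    exact mul_le_mul_of_nonneg_left hr2 (by positivity)
  have hB2 : (n1 x0 : ℝ) ≤ A' * k := by
    have h1 : n1 x0 ≤ n1 z + n1 (z - z1) + n1 ((n : ℤ) • s) := by
      have h2 := n1_add_le (z1 : V e) (-((n : ℤ) • s))
      rw [n1_neg, ← sub_eq_add_neg] at h2
      have h3 := n1_add_le z (-(z - z1))
      rw [n1_neg] at h3
      have h4 : z + -(z - z1) = z1 := by abel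
      rw [h4] at h3
      linarith
    have h2 : ((n1 x0 : ℤ) : ℝ) ≤ n1 z + n1 (z - z1) + n1 ((n : ℤ) • s) := by exact_mod_cast h1
    rw [hns] at h2
    rw [hA', add_mul]
    linarith
  have hlf1 : lf f z1 = lf f x0 + n * β := by
    rw [← hx0z1, lf_add, lf_smul, hfs]; push_cast; ring
  have hG : 2 * (nr f * (((e : ℝ) + 2) * r)) < κ * k := by
    have h1 : 2 * (nr f * (((e : ℝ) + 2) * r)) ≤ 2 * (nr f * (((e : ℝ) + 2) * (2 * θ * k))) := by
      gcongr
    have h2 : 2 * (nr f * (((e : ℝ) + 2) * (2 * θ * k))) =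
        (2 * (nr f * ((e : ℝ) + 2))) * (2 * θ * k) := by ring
    have h3 : (2 * (nr f * ((e : ℝ) + 2))) * (2 * θ * k) ≤ H * (2 * θ * k) := by
      refine mul_le_mul_of_nonneg_right ?_ (by positivity)
      rw [hH]
      have : 0 ≤ q.b * (C + e + 3) := by positivity
      linarith
    have h4 : H * (2 * θ * k) = κ / 4 * k := by rw [← hθH]; ring
    linarith
  have hnβ : nr f * (((e : ℝ) + 2) * r) ≤ n * β := by
    have h1 : nr f * (((e : ℝ) + 2) * r) = (C * r) * β := by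
      have : C * r * β = (C * β) * r := by ring
      rw [this, hCβ]; ring
    rw [h1]
    exact mul_le_mul_of_nonneg_right hn1 hβ.le
  have hball : ∀ v : V e, (n1 (v - z1) : ℝ) ≤ ((e : ℝ) + 2) * r →
      |lf f v - lf f z1| ≤ nr f * (((e : ℝ) + 2) * r) := fun v hv =>
    (abs_lf_sub_le f v z1).trans (mul_le_mul_of_nonneg_left hv hnf)
  have hzz := abs_le.1 (hball z hzz1)
  set R : Set (V e) := {v | lf f x0 ≤ lf f v ∧ lf f v < lf f y' ∧ (n1 (v - x0) : ℝ) ≤ A' * k}
    with hR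
  have hAk : 0 ≤ A * k := by positivity
  have hB3 : ((e : ℝ) + 2) * r + n ≤ A' * k := by
    rw [hA', add_mul]; linarith
  have her : 0 ≤ ((e : ℝ) + 2) * r := by positivity
  have hn0 : (0 : ℝ) ≤ n := Nat.cast_nonneg n
  -- the fixed paths are cheap
  have hm1 : ((K * k : ℕ) : ℝ) = K * k := by push_cast; ring
  have hA'K : A' * k ≤ K * k := mul_le_mul_of_nonneg_right (by linarith) hk0.le
  have hx0m : n1 (x0 - 0) ≤ ((K * k : ℕ) : ℤ) := by
    rw [sub_zero]
    have : (n1 x0 : ℝ) ≤ ((K * k : ℕ) : ℝ) := by rw [hm1]; exact hB2.trans hA'K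
    exact_mod_cast this
  have hz1m : n1 (z1 - 0) ≤ ((K * k : ℕ) : ℤ) := by
    rw [sub_zero]
    have h1 : n1 z1 ≤ n1 z + n1 (z - z1) := by
      have h3 := n1_add_le z (-(z - z1))
      rw [n1_neg] at h3
      have h4 : z + -(z - z1) = z1 := by abel
      rwa [h4] at h3
    have h2 : ((n1 z1 : ℤ) : ℝ) ≤ n1 z + n1 (z - z1) := by exact_mod_cast h1
    have : (n1 z1 : ℝ) ≤ ((K * k : ℕ) : ℝ) := by
      rw [hm1]
      refine le_trans ?_ hA'K
      rw [hA', add_mul]
      linarith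
    exact_mod_cast this
  have hzm : n1 (z - 0) ≤ ((K * k : ℕ) : ℤ) := by
    rw [sub_zero]
    have : (n1 z : ℝ) ≤ ((K * k : ℕ) : ℝ) := by
      rw [hm1]
      refine le_trans hnz (le_trans ?_ hA'K)
      rw [hA', add_mul]
      have : 0 ≤ 2 * θ * (e + 3 + C) * k := by positivity
      linarith
    exact_mod_cast this
  have hθm : θ' * ((K * k : ℕ) : ℝ) = κ / 8 * k := by rw [hm1, ← mul_assoc, hθ'K]
  have hc1 : cost q ω (strt x0 s hs n) ≤ q.b * n + κ / 8 * k := by
    by_contra hcon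
    push Not at hcon
    refine hBd (Or.inr ⟨x0, x0, hx0m, hx0m, ?_⟩)
    show q.b * (strt x0 s hs n).length + θ' * ((K * k : ℕ) : ℝ) ≤ cost q ω (strt x0 s hs n)
    rw [hθm]
    have h1 : ((strt x0 s hs n).length : ℝ) ≤ n := by exact_mod_cast strt_len x0 s hs n
    have h2 := mul_le_mul_of_nonneg_left h1 hb.le
    linarith
  have hc2 : cost q ω (sp z1 z) ≤ q.b * n1 (z - z1) + κ / 8 * k := by
    by_contra hcon
    push Not at hcon
    refine hBd (Or.inl ⟨z1, z, hz1m, hzm, ?_⟩)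
    show q.b * (sp z1 z).length + θ' * ((K * k : ℕ) : ℝ) ≤ cost q ω (sp z1 z)
    rw [hθm]
    have h1 : ((sp z1 z).length : ℝ) = n1 (z - z1) := by exact_mod_cast sp_len z1 z
    rw [h1]
    exact hcon.le
  have hEv1 : ω ∈ Ev q (EIn R) x0 z1 (q.b * n + κ / 8 * k) := by
    have h : ω ∈ Ev q (EIn R) x0 (x0 + (n : ℤ) • s) (q.b * n + κ / 8 * k) := by
      refine ⟨strt x0 s hs n, strt_uses x0 s hs n ?_, hc1⟩
      intro m hm
      have hm' : (m : ℝ) ≤ n := by exact_mod_cast hm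
      have h1 : lf f (x0 + (m : ℤ) • s) = lf f x0 + m * β := by
        rw [lf_add, lf_smul, hfs]; push_cast; ring
      have h2 : (m : ℝ) * β ≤ n * β := mul_le_mul_of_nonneg_right hm' hβ.le
      have h3 : 0 ≤ (m : ℝ) * β := by positivity
      refine ⟨by rw [h1]; linarith, by rw [h1]; linarith, ?_⟩
      rw [add_sub_cancel_left, hns]
      linarith
    rw [hx0z1] at h; exact h
  have hEv2 : ω ∈ Ev q (EIn R) z1 z (q.b * n1 (z - z1) + κ / 8 * k) := by
    refine ⟨sp z1 z, edges_EIn fun v hv0 => ?_, hc2⟩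
    have hv : n1 (v - z1) ≤ n1 (z - z1) := by
      have := n1_le_of_mem (sp z1 z) hv0
      rwa [sp_len] at this
    have hv' : (n1 (v - z1) : ℝ) ≤ n1 (z - z1) := by exact_mod_cast hv
    have h1 := abs_le.1 (hball v (hv'.trans hzz1))
    refine ⟨by linarith, by linarith, ?_⟩
    have h2 : n1 (v - x0) ≤ n1 (v - z1) + n1 ((n : ℤ) • s) := by
      have h3 := n1_tri v z1 x0
      have h4 : z1 - x0 = (n : ℤ) • s := by rw [hx0]; abel
      rwa [h4] at h3
    have h3 : ((n1 (v - x0) : ℤ) : ℝ) ≤ n1 (v - z1) + n1 ((n : ℤ) • s) := by exact_mod_cast h2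
    rw [hns] at h3
    linarith
  have hEv := Ev_trans q hEv1 hEv2
  have ht0 : q.b * n + q.b * n1 (z - z1) ≤ κ / 4 * k := by
    have h1 : q.b * n + q.b * n1 (z - z1) ≤ q.b * ((C + e + 3) * r) := by
      rw [← mul_add]
      refine mul_le_mul_of_nonneg_left ?_ hb.le
      have h : (C + e + 3) * (r : ℝ) = (C + 1) * r + ((e : ℝ) + 2) * r := by ring
      rw [h]
      exact add_le_add hn2 hzz1
    refine h1.trans ?_
    have h2 : q.b * ((C + e + 3) * r) ≤ q.b * ((C + e + 3) * (2 * θ * k)) := by gcongr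
    refine h2.trans ?_
    have h3 : q.b * ((C + e + 3) * (2 * θ * k)) = (q.b * (C + e + 3)) * (2 * θ * k) := by ring
    rw [h3]
    have h4 : (q.b * (C + e + 3)) * (2 * θ * k) ≤ H * (2 * θ * k) := by
      refine mul_le_mul_of_nonneg_right ?_ (by positivity)
      rw [hH]
      have : 0 ≤ nr f * ((e : ℝ) + 2) := by positivity
      linarith
    have h5 : H * (2 * θ * k) = κ / 4 * k := by rw [← hθH]; ring
    linarith
  refine search_tr D i (w := W * k) (B := A' * k) (t := lf f y' - κ * k)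
    (t0 := q.b * n + κ / 8 * k + (q.b * n1 (z - z1) + κ / 8 * k)) (x0 := x0) (z := z) (y := y')
    (ω := ω) hl hB2 hWk ?_ p2
    (fun v hv => hsupp v (h12 v (h22 v hv))) (fun v hv => h14 v (h12 v (h22 v hv)))
    (fun v hv => h24 v (h22 v hv)) h25 hcost hEv (by linarith) ?_
  · rw [add_mul]; linarith
  · linarith

lemma SSf_meas (D : Cor e q F ι) (i : ι) (l w s : ℝ) : MeasurableSet (SSf D i l w s) :=
  MeasurableSet.iUnion fun _ => Ev_meas q _ _ _ _

end

/-- **MODULE SS.** -/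
theorem ss : SsT := by
  intro e q F _ _ ι _ D ε _ _ h i W κ η hW hκ hη
  obtain ⟨W', k0, J, zz, Bd, CB, hW', hJ, hCB, hk0, hBd, hcov⟩ := cells D i hW hκ
  have hJ0 : (0 : ℝ) < J.card := by exact_mod_cast hJ.card_pos
  have hη2 : 0 < η / 2 := half_pos hη
  obtain ⟨Cs, hCs⟩ := h i W' (κ / 2) (η / 2 / J.card) hW' (half_pos hκ) (div_pos hη2 hJ0)
  obtain ⟨k1, hk1⟩ := exists_nat_ge (CB / (η / 2))
  refine ⟨max (max Cs k0) k1, fun l hl => ?_⟩
  have hl0 : k0 ≤ kk D ε l := (le_max_right _ _).trans ((le_max_left _ _).trans hl)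
  have hl1 : k1 ≤ kk D ε l := (le_max_right _ _).trans hl
  have h1 : ∀ a, PM e F (act (tr (zz (kk D ε l) a)) ⁻¹'
      (SSf D i l (W' * kk D ε l) (κ / 2 * kk D ε l))) ≤ ENNReal.ofReal (η / 2 / J.card) := by
    intro a
    rw [(act_mp F (tr (zz (kk D ε l) a))).measure_preimage
      (SSf_meas D i _ _ _).nullMeasurableSet]
    exact hCs l ((le_max_left _ _).trans ((le_max_left _ _).trans hl))
  have h2 : PM e F (Bd (kk D ε l)) ≤ ENNReal.ofReal (η / 2) := by
    refine (hBd _ hl0).trans (ENNReal.ofReal_le_ofReal ?_)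
    have hk : (0 : ℝ) < kk D ε l := by
      have : 0 < kk D ε l := lt_of_lt_of_le hk0 hl0
      exact_mod_cast this
    rw [div_le_iff₀ hk]
    rw [div_le_iff₀ hη2] at hk1
    have h3 : (k1 : ℝ) ≤ kk D ε l := by exact_mod_cast hl1
    have h4 := mul_le_mul_of_nonneg_right h3 hη2.le
    linarith
  calc PM e F (SSg D i l (W * kk D ε l) (κ * kk D ε l))
      ≤ PM e F (Bd (kk D ε l) ∪ ⋃ a ∈ J, act (tr (zz (kk D ε l) a)) ⁻¹'
          (SSf D i l (W' * kk D ε l) (κ / 2 * kk D ε l))) := measure_mono (hcov l _ hl0)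
    _ ≤ PM e F (Bd (kk D ε l)) + ∑ a ∈ J, PM e F (act (tr (zz (kk D ε l) a)) ⁻¹'
          (SSf D i l (W' * kk D ε l) (κ / 2 * kk D ε l))) :=
        (measure_union_le _ _).trans (add_le_add le_rfl (measure_biUnion_finset_le _ _))
    _ ≤ ENNReal.ofReal (η / 2) + ∑ _a ∈ J, ENNReal.ofReal (η / 2 / J.card) :=
        add_le_add h2 (Finset.sum_le_sum fun a _ => h1 a)
    _ = ENNReal.ofReal η := by
        rw [Finset.sum_const, nsmul_eq_mul, ← ENNReal.ofReal_natCast,
          ← ENNReal.ofReal_mul hJ0.le, mul_div_cancel₀ _ hJ0.ne',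
          ← ENNReal.ofReal_add hη2.le hη2.le, add_halves]

end Pool.Agent.J6H75.NX.SS
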